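import Pool.Agent.helper78.NLS.Spec

set_option autoImplicit false

open Complex Metric Set Filter Topology MeasureTheory MPS
open Pool.Agent.helper98.ILF Pool.Agent.helper16.Multibrot

noncomputable section

namespace NLS

theorem CTL : CTL_stmt := by
  intro R d h z hR hd hL hsupp hdist
  have hball : IntegrableOn h (ball (0 : ℂ) R) := by
    have h1 : MemLp h 2 (volume.restrict (ball (0 : ℂ) R)) := hL.restrict _
    have : IsFiniteMeasure (volume.restrict (ball (0 : ℂ) R)) :=
      ⟨by rw [Measure.restrict_apply_univ]; exact measure_ball_lt_top⟩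
    exact h1.integrable (by norm_num)
  have hz0 : ∀ w, w ∉ ball (0 : ℂ) R → h w = 0 := fun w hw => hsupp w (by
    rw [mem_ball_zero_iff, not_lt] at hw
    exact hw)
  have hint : Integrable h := (integrableOn_iff_integrable_of_support_subset (fun w hw => by
    by_contra hcon
    exact hw (hz0 w hcon))).mp hball
  have hle : ∀ w, ‖h w / (z - w)‖ ≤ ‖h w‖ / d := by
    intro w
    by_cases hw : h w = 0
    · rw [hw]; simp
    · rw [norm_div]
      exact div_le_div_of_nonneg_left (norm_nonneg _) hd (hdist w hw)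
  have hmeas : AEStronglyMeasurable (fun w : ℂ => h w / (z - w)) volume := by
    have h2 : AEStronglyMeasurable (fun w : ℂ => (z - w)⁻¹) volume :=
      ((measurable_const.sub measurable_id).inv).aestronglyMeasurable
    exact (hL.aestronglyMeasurable.mul h2).congr (Eventually.of_forall fun w => by
      simp [div_eq_mul_inv])
  have hI : Integrable (fun w : ℂ => h w / (z - w)) :=
    (hint.norm.div_const d).mono' hmeas (Eventually.of_forall hle)
  refine ⟨hI, ?_⟩
  -- L¹ norm
  have hL1 : ∫ w, ‖h w‖ ≤ (eLpNorm h 2 volume).toReal * (R * Real.sqrt Real.pi) := by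
    have e1 : ∫ w, ‖h w‖ = ∫ w in ball (0 : ℂ) R, ‖h w‖ := by
      rw [← integral_indicator measurableSet_ball]
      congr 1
      ext w
      by_cases hw : w ∈ ball (0 : ℂ) R
      · rw [indicator_of_mem hw]
      · rw [indicator_of_notMem hw, hz0 w hw, norm_zero]
    have e2 : ∫ w in ball (0 : ℂ) R, ‖h w‖ = (eLpNorm h 1 (volume.restrict (ball (0 : ℂ) R))).toReal := by
      rw [eLpNorm_one_eq_lintegral_enorm]
      exact integral_norm_eq_lintegral_enorm hball.aestronglyMeasurable
    have e3 := eLpNorm_le_eLpNorm_mul_rpow_measure_univ (μ := volume.restrict (ball (0 : ℂ) R))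
      (p := 1) (q := 2) (f := h) (by norm_num) hball.aestronglyMeasurable
    have e4 : eLpNorm h 2 (volume.restrict (ball (0 : ℂ) R)) ≤ eLpNorm h 2 volume :=
      eLpNorm_mono_measure _ Measure.restrict_le_self
    have e5 : (volume.restrict (ball (0 : ℂ) R)) univ = ENNReal.ofReal (R ^ 2 * Real.pi) := by
      rw [Measure.restrict_apply_univ, Complex.volume_ball, ENNReal.ofReal_mul (by positivity),
        ENNReal.ofReal_pow hR.le]
      congr 1
      rw [← NNReal.coe_real_pi]
      exact (ENNReal.ofReal_coe_nnreal).symm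
    have e6 : (ENNReal.ofReal (R ^ 2 * Real.pi)) ^ (1 / (1 : ENNReal).toReal - 1 / (2 : ENNReal).toReal) =
        ENNReal.ofReal (R * Real.sqrt Real.pi) := by
      have : (1 / (1 : ENNReal).toReal - 1 / (2 : ENNReal).toReal) = (1 / 2 : ℝ) := by norm_num
      rw [this, ENNReal.ofReal_rpow_of_nonneg (by positivity) (by norm_num)]
      congr 1
      rw [← Real.sqrt_eq_rpow, Real.sqrt_mul (by positivity), Real.sqrt_sq hR.le]
    rw [e1, e2]
    have e7 : eLpNorm h 1 (volume.restrict (ball (0 : ℂ) R)) ≤
        eLpNorm h 2 volume * ENNReal.ofReal (R * Real.sqrt Real.pi) := by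
      refine e3.trans ?_
      rw [e5, e6]
      exact mul_le_mul_left e4 _
    have e8 := ENNReal.toReal_mono (ENNReal.mul_ne_top hL.eLpNorm_ne_top ENNReal.ofReal_ne_top) e7
    rwa [ENNReal.toReal_mul, ENNReal.toReal_ofReal (by positivity)] at e8
  have hpi1 : 1 ≤ Real.sqrt Real.pi := by
    rw [Real.one_le_sqrt]
    linarith [Real.pi_gt_three]
  have hpi : 0 < Real.pi := Real.pi_pos
  rw [norm_mul, Complex.norm_real, Real.norm_of_nonneg (by positivity)]
  have h3 : ‖∫ w : ℂ, h w / (z - w)‖ ≤ ∫ w, ‖h w‖ / d :=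
    (norm_integral_le_integral_norm _).trans
      (integral_mono hI.norm (hint.norm.div_const d) hle)
  rw [integral_div] at h3
  set N : ℝ := (eLpNorm h 2 volume).toReal with hN
  have hN0 : 0 ≤ N := ENNReal.toReal_nonneg
  calc 1 / Real.pi * ‖∫ w : ℂ, h w / (z - w)‖
      ≤ 1 / Real.pi * ((∫ w, ‖h w‖) / d) := mul_le_mul_of_nonneg_left h3 (by positivity)
    _ ≤ 1 / Real.pi * (N * (R * Real.sqrt Real.pi) / d) := by
        apply mul_le_mul_of_nonneg_left _ (by positivity)
        exact div_le_div_of_nonneg_right hL1 hd.le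
    _ ≤ R / d * N := by
        have h4 : Real.sqrt Real.pi ≤ Real.pi := by
          nlinarith [Real.mul_self_sqrt hpi.le]
        rw [show 1 / Real.pi * (N * (R * Real.sqrt Real.pi) / d) = (R / d * N) * (Real.sqrt Real.pi / Real.pi) by
          field_simp]
        have h5 : Real.sqrt Real.pi / Real.pi ≤ 1 := by
          rw [div_le_one hpi]
          exact h4
        have h6 : 0 ≤ R / d * N := by positivity
        nlinarith

end NLS
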